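import Mathlib
import Pool.Agent.Helper12_NGR.Stmts

/-!
# Squad NGR, module DCP: a fully indicable group whose integral group ring has the descending chain
condition on completely prime ideals is solvable
-/

set_option autoImplicit false

universe u

namespace Pool.Agent.NGR.H73

open Pool.Agent.NGR
open scoped commutatorElement

section

variable {G : Type u} [Group G]

/-- The homomorphism to the torsion-free abelianization. -/
def th (N : Subgroup G) : N →* (Abelianization N ⧸ CommGroup.torsion (Abelianization N)) :=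
  (QuotientGroup.mk' _).comp Abelianization.of

lemma th_eq_one {N : Subgroup G} (x : N) : th N x = 1 ↔ IsOfFinOrder (Abelianization.of x) := by
  change QuotientGroup.mk' _ (Abelianization.of x) = 1 ↔ _
  rw [← MonoidHom.mem_ker, QuotientGroup.ker_mk', CommGroup.mem_torsion]

/-- The isolator of the commutator subgroup of `N`. -/
def iso (N : Subgroup G) : Subgroup G := (th N).ker.map N.subtype

lemma mem_iso {N : Subgroup G} {x : G} : x ∈ iso N ↔ ∃ hx : x ∈ N, th N ⟨x, hx⟩ = 1 := by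
  constructor
  · rintro ⟨y, hy, rfl⟩
    exact ⟨y.2, hy⟩
  · rintro ⟨hx, h⟩
    exact ⟨⟨x, hx⟩, h, rfl⟩

lemma iso_le (N : Subgroup G) : iso N ≤ N := fun _ hx => (mem_iso.1 hx).1

lemma iso_normal {N : Subgroup G} (hN : N.Normal) : (iso N).Normal := by
  constructor
  intro x hx g
  obtain ⟨hxN, h⟩ := mem_iso.1 hx
  rw [th_eq_one] at h
  refine mem_iso.2 ⟨hN.conj_mem x hxN g, ?_⟩
  rw [th_eq_one]
  have h1 : (⟨g * x * g⁻¹, hN.conj_mem x hxN g⟩ : N) =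
      (MulAut.conjNormal g : MulAut N).toMonoidHom ⟨x, hxN⟩ := by
    apply Subtype.ext
    simp
  rw [h1]
  have h2 : Abelianization.of ((MulAut.conjNormal g : MulAut N).toMonoidHom ⟨x, hxN⟩) =
      Abelianization.map (MulAut.conjNormal g : MulAut N).toMonoidHom
        (Abelianization.of ⟨x, hxN⟩) := rfl
  rw [h2]
  exact MonoidHom.isOfFinOrder _ h

lemma comm_le (N : Subgroup G) : ⁅N, N⁆ ≤ iso N := by
  rw [Subgroup.commutator_le]
  intro x hx y hy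
  refine mem_iso.2 ⟨N.mul_mem (N.mul_mem (N.mul_mem hx hy) (N.inv_mem hx)) (N.inv_mem hy), ?_⟩
  have h1 : (⟨⁅x, y⁆, N.mul_mem (N.mul_mem (N.mul_mem hx hy) (N.inv_mem hx)) (N.inv_mem hy)⟩ : N) =
      ⁅(⟨x, hx⟩ : N), (⟨y, hy⟩ : N)⁆ := rfl
  rw [h1, map_commutatorElement, commutatorElement_eq_one_iff_mul_comm, mul_comm]

lemma iso_lt {N : Subgroup G} (f : N →* Multiplicative ℤ) (hf : Function.Surjective f) :
    iso N < N := by
  refine lt_of_le_of_ne (iso_le N) ?_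
  intro hcon
  obtain ⟨x, hx⟩ := hf (Multiplicative.ofAdd 1)
  have h1 : (x : G) ∈ iso N := by
    rw [hcon]
    exact x.2
  obtain ⟨hxN, h2⟩ := mem_iso.1 h1
  rw [th_eq_one] at h2
  have h3 : IsOfFinOrder (f x) := by
    have h4 : f x = Abelianization.lift f (Abelianization.of x) := by simp
    rw [h4]
    exact MonoidHom.isOfFinOrder _ h2
  rw [hx, isOfFinOrder_iff_pow_eq_one] at h3
  obtain ⟨n, hn, h4⟩ := h3
  rw [← ofAdd_nsmul] at h4
  have h5 : n • (1 : ℤ) = 0 := h4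
  simp at h5
  omega

/-- The quotient by `N` has unique products. -/
def UP (N : Subgroup G) : Prop := ∀ A B : Finset G, A.Nonempty → B.Nonempty →
  ∃ a₀ ∈ A, ∃ b₀ ∈ B, ∀ a ∈ A, ∀ b ∈ B, (a₀ * b₀)⁻¹ * (a * b) ∈ N → a₀⁻¹ * a ∈ N ∧ b₀⁻¹ * b ∈ N

lemma up_top : UP (⊤ : Subgroup G) := by
  intro A B ⟨a, ha⟩ ⟨b, hb⟩
  exact ⟨a, ha, b, hb, fun _ _ _ _ _ => ⟨Subgroup.mem_top _, Subgroup.mem_top _⟩⟩

lemma up_iso {N : Subgroup G} (hN : N.Normal) (hfg : N.FG) (h : UP N) : UP (iso N) := by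
  classical
  intro A B hA hB
  have hfg1 : Group.FG N := (Group.fg_iff_subgroup_fg N).2 hfg
  have hfg2 : Group.FG (Abelianization N ⧸ CommGroup.torsion (Abelianization N)) := by
    refine Group.fg_of_surjective (f := th N) ?_
    intro q
    obtain ⟨p, rfl⟩ := QuotientGroup.mk'_surjective _ q
    obtain ⟨x, rfl⟩ := QuotientGroup.mk'_surjective _ p
    exact ⟨x, rfl⟩
  have hfg3 : Monoid.FG (Abelianization N ⧸ CommGroup.torsion (Abelianization N)) :=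
    Group.fg_iff_monoid_fg.1 hfg2
  obtain ⟨a₁, ha₁, b₁, hb₁, h1⟩ := h A B hA hB
  -- differences
  let A' : Finset G := A.filter fun a => a₁⁻¹ * a ∈ N
  let B' : Finset G := B.filter fun b => b * b₁⁻¹ ∈ N
  let fA : G → (Abelianization N ⧸ CommGroup.torsion (Abelianization N)) := fun a =>
    if ha : a₁⁻¹ * a ∈ N then th N ⟨a₁⁻¹ * a, ha⟩ else 1
  let fB : G → (Abelianization N ⧸ CommGroup.torsion (Abelianization N)) := fun b =>
    if hb : b * b₁⁻¹ ∈ N then th N ⟨b * b₁⁻¹, hb⟩ else 1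
  have hfA : ∀ a (ha : a₁⁻¹ * a ∈ N), fA a = th N ⟨a₁⁻¹ * a, ha⟩ := fun a ha => dif_pos ha
  have hfB : ∀ b (hb : b * b₁⁻¹ ∈ N), fB b = th N ⟨b * b₁⁻¹, hb⟩ := fun b hb => dif_pos hb
  have hA' : A'.Nonempty := ⟨a₁, Finset.mem_filter.2 ⟨ha₁, by rw [inv_mul_cancel]; exact N.one_mem⟩⟩
  have hB' : B'.Nonempty := ⟨b₁, Finset.mem_filter.2 ⟨hb₁, by rw [mul_inv_cancel]; exact N.one_mem⟩⟩
  obtain ⟨p, hp, q, hq, hu⟩ := UniqueProds.uniqueMul_of_nonempty (hA'.image fA) (hB'.image fB)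
  obtain ⟨a₀, ha₀, rfl⟩ := Finset.mem_image.1 hp
  obtain ⟨b₀, hb₀, rfl⟩ := Finset.mem_image.1 hq
  obtain ⟨ha₀A, ha₀N⟩ := Finset.mem_filter.1 ha₀
  obtain ⟨hb₀B, hb₀N⟩ := Finset.mem_filter.1 hb₀
  refine ⟨a₀, ha₀A, b₀, hb₀B, ?_⟩
  intro a ha b hb hab
  have hab' := iso_le N hab
  -- the pair `(a, b)` is in the class of `(a₁, b₁)`
  have h2 : (a₁ * b₁)⁻¹ * (a * b) ∈ N := by
    have h3 : b₁⁻¹ * (a₁⁻¹ * a₀) * b₁ ∈ N := by
      have := hN.conj_mem _ ha₀N b₁⁻¹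
      rwa [inv_inv] at this
    have h4 : b₁⁻¹ * (b₀ * b₁⁻¹) * b₁ ∈ N := by
      have := hN.conj_mem _ hb₀N b₁⁻¹
      rwa [inv_inv] at this
    have h5 := N.mul_mem (N.mul_mem h3 h4) hab'
    have h6 : b₁⁻¹ * (a₁⁻¹ * a₀) * b₁ * (b₁⁻¹ * (b₀ * b₁⁻¹) * b₁) * ((a₀ * b₀)⁻¹ * (a * b)) =
        (a₁ * b₁)⁻¹ * (a * b) := by group
    rwa [h6] at h5
  obtain ⟨h7, h8⟩ := h1 a ha b hb h2
  have h9 : b * b₁⁻¹ ∈ N := by
    have := hN.conj_mem _ h8 b₁
    have h10 : b₁ * (b₁⁻¹ * b) * b₁⁻¹ = b * b₁⁻¹ := by group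
    rwa [h10] at this
  have haA' : a ∈ A' := Finset.mem_filter.2 ⟨ha, h7⟩
  have hbB' : b ∈ B' := Finset.mem_filter.2 ⟨hb, h9⟩
  -- the product
  have hisoN := iso_normal hN
  have h11 : fA a * fB b = fA a₀ * fB b₀ := by
    rw [hfA a h7, hfB b h9, hfA a₀ ha₀N, hfB b₀ hb₀N, ← map_mul, ← map_mul, ← div_eq_one,
      ← map_div]
    have h12 : b₁ * ((a₀ * b₀)⁻¹ * (a * b)) * b₁⁻¹ ∈ iso N := hisoN.conj_mem _ hab b₁
    obtain ⟨h13, h14⟩ := mem_iso.1 h12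
    -- conjugate of the quotient
    have h15 : (((⟨a₁⁻¹ * a₀, ha₀N⟩ : N) * ⟨b₀ * b₁⁻¹, hb₀N⟩) *
        ⟨b₁ * ((a₀ * b₀)⁻¹ * (a * b)) * b₁⁻¹, h13⟩ : N) =
        (⟨a₁⁻¹ * a, h7⟩ : N) * ⟨b * b₁⁻¹, h9⟩ := by
      apply Subtype.ext
      change a₁⁻¹ * a₀ * (b₀ * b₁⁻¹) * (b₁ * ((a₀ * b₀)⁻¹ * (a * b)) * b₁⁻¹) =
        a₁⁻¹ * a * (b * b₁⁻¹)
      group
    rw [← h15, map_div, map_mul _ _ (⟨b₁ * ((a₀ * b₀)⁻¹ * (a * b)) * b₁⁻¹, h13⟩ : N), h14,
      mul_one, div_self']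
  obtain ⟨h16, h17⟩ := hu (Finset.mem_image_of_mem fA haA') (Finset.mem_image_of_mem fB hbB') h11
  rw [hfA a h7, hfA a₀ ha₀N] at h16
  rw [hfB b h9, hfB b₀ hb₀N] at h17
  constructor
  · have h18 : th N ((⟨a₁⁻¹ * a₀, ha₀N⟩ : N)⁻¹ * ⟨a₁⁻¹ * a, h7⟩) = 1 := by
      rw [map_mul, map_inv, h16, inv_mul_cancel]
    have h19 : (((⟨a₁⁻¹ * a₀, ha₀N⟩ : N)⁻¹ * ⟨a₁⁻¹ * a, h7⟩ : N) : G) ∈ iso N :=
      mem_iso.2 ⟨Subtype.property _, h18⟩
    have h20 : (((⟨a₁⁻¹ * a₀, ha₀N⟩ : N)⁻¹ * ⟨a₁⁻¹ * a, h7⟩ : N) : G) = a₀⁻¹ * a := by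
      change (a₁⁻¹ * a₀)⁻¹ * (a₁⁻¹ * a) = _
      group
    rwa [h20] at h19
  · have h18 : th N ((⟨b₀ * b₁⁻¹, hb₀N⟩ : N)⁻¹ * ⟨b * b₁⁻¹, h9⟩) = 1 := by
      rw [map_mul, map_inv, h17, inv_mul_cancel]
    have h19 : (((⟨b₀ * b₁⁻¹, hb₀N⟩ : N)⁻¹ * ⟨b * b₁⁻¹, h9⟩ : N) : G) ∈ iso N :=
      mem_iso.2 ⟨Subtype.property _, h18⟩
    have h21 := hisoN.conj_mem _ h19 b₁⁻¹
    have h20 : b₁⁻¹ * (((⟨b₀ * b₁⁻¹, hb₀N⟩ : N)⁻¹ * ⟨b * b₁⁻¹, h9⟩ : N) : G) * b₁⁻¹⁻¹ =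
        b₀⁻¹ * b := by
      change b₁⁻¹ * ((b₀ * b₁⁻¹)⁻¹ * (b * b₁⁻¹)) * b₁⁻¹⁻¹ = _
      group
    rwa [h20] at h21

lemma uniqueProds_of_up {N : Subgroup G} [N.Normal] (h : UP N) : UniqueProds (G ⧸ N) := by
  classical
  constructor
  intro A B hA hB
  obtain ⟨a₀, ha₀, b₀, hb₀, h1⟩ := h (A.image Quotient.out) (B.image Quotient.out)
    (hA.image _) (hB.image _)
  obtain ⟨α, hα, rfl⟩ := Finset.mem_image.1 ha₀
  obtain ⟨β, hβ, rfl⟩ := Finset.mem_image.1 hb₀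
  have hout : ∀ q : G ⧸ N, (QuotientGroup.mk (Quotient.out q) : G ⧸ N) = q :=
    fun q => Quotient.out_eq' q
  refine ⟨α, hα, β, hβ, ?_⟩
  intro γ δ hγ hδ hγδ
  obtain ⟨h2, h3⟩ := h1 _ (Finset.mem_image_of_mem Quotient.out hγ) _
    (Finset.mem_image_of_mem Quotient.out hδ) (by
      rw [← QuotientGroup.eq, QuotientGroup.mk_mul, QuotientGroup.mk_mul, hout, hout, hout, hout,
        hγδ])
  rw [← QuotientGroup.eq, hout, hout] at h2 h3
  exact ⟨h2.symm, h3.symm⟩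

/-- The tower. -/
def tow (G : Type u) [Group G] : ℕ → Subgroup G
  | 0 => ⊤
  | n + 1 => iso (tow G n)

lemma tow_normal (n : ℕ) : (tow G n).Normal := by
  induction n with
  | zero => exact Subgroup.normal_top
  | succ n ih => exact iso_normal ih

lemma tow_up (hfi : FullyIndicable G) (n : ℕ) : UP (tow G n) := by
  induction n with
  | zero => exact up_top
  | succ n ih => exact up_iso (tow_normal n) (hfi _).1 ih

lemma tow_derived (n : ℕ) : derivedSeries G n ≤ tow G n := by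
  induction n with
  | zero => exact le_top
  | succ n ih =>
    rw [derivedSeries_succ]
    exact (Subgroup.commutator_mono ih ih).trans (comm_le _)

/-- The homomorphism of group rings. -/
noncomputable def fr (N : Subgroup G) [N.Normal] : MonoidAlgebra ℤ G →+* MonoidAlgebra ℤ (G ⧸ N) :=
  MonoidAlgebra.mapDomainRingHom ℤ (QuotientGroup.mk' N)

lemma fr_single (N : Subgroup G) [N.Normal] (g : G) (c : ℤ) :
    fr N (MonoidAlgebra.single g c) = MonoidAlgebra.single (g : G ⧸ N) c := by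
  unfold fr
  simp

lemma fr_le {N M : Subgroup G} [N.Normal] [M.Normal] (h : N ≤ M) (x : MonoidAlgebra ℤ G)
    (hx : fr N x = 0) : fr M x = 0 := by
  have h1 : fr M = (MonoidAlgebra.mapDomainRingHom ℤ
      (QuotientGroup.map N M (MonoidHom.id G) h)).comp (fr N) := by
    apply MonoidAlgebra.ringHom_ext
    · intro c
      simp [fr_single]
    · intro g
      rw [RingHom.comp_apply, fr_single, fr_single]
      simp only [MonoidAlgebra.mapDomainRingHom_apply, MonoidAlgebra.mapDomain_single]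
      rfl
  rw [h1, RingHom.comp_apply, hx, map_zero]

end

theorem dcp : DcpStmt.{u} := by
  intro G _ hfi hdcc
  by_contra hsol
  apply hdcc
  have hnb : ∀ n, tow G n ≠ ⊥ := by
    intro n hn
    apply hsol
    refine ⟨n, ?_⟩
    rw [eq_bot_iff, ← hn]
    exact tow_derived n
  have hlt : ∀ n, tow G (n + 1) < tow G n := by
    intro n
    obtain ⟨f, hf⟩ := (hfi (tow G n)).2 (hnb n)
    exact iso_lt f hf
  have hnor : ∀ n, (tow G n).Normal := tow_normal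
  refine ⟨fun n => haveI := hnor n; TwoSidedIdeal.ker (fr (tow G n)), ?_, ?_⟩
  · intro n
    have := hnor n
    have := uniqueProds_of_up (tow_up hfi n)
    constructor
    · rw [TwoSidedIdeal.mem_ker, map_one]
      exact one_ne_zero
    · intro x y hxy
      rw [TwoSidedIdeal.mem_ker, map_mul] at hxy
      rw [TwoSidedIdeal.mem_ker, TwoSidedIdeal.mem_ker]
      exact mul_eq_zero.1 hxy
  · intro n
    have := hnor n
    have := hnor (n + 1)
    rw [lt_iff_le_not_ge]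
    constructor
    · intro x hx
      rw [TwoSidedIdeal.mem_ker] at hx ⊢
      exact fr_le (hlt n).le x hx
    · intro hcon
      obtain ⟨g, hg, hg'⟩ := SetLike.exists_of_lt (hlt n)
      have h1 : MonoidAlgebra.single g (1 : ℤ) - 1 ∈ TwoSidedIdeal.ker (fr (tow G n)) := by
        rw [TwoSidedIdeal.mem_ker, map_sub, map_one, fr_single, sub_eq_zero]
        have h2 : (g : G ⧸ tow G n) = 1 := (QuotientGroup.eq_one_iff g).2 hg
        rw [h2]
        rfl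
      have h3 := hcon h1
      rw [TwoSidedIdeal.mem_ker, map_sub, map_one, fr_single, sub_eq_zero] at h3
      have h4 : (g : G ⧸ tow G (n + 1)) ≠ 1 := by
        rw [Ne, QuotientGroup.eq_one_iff]
        exact hg'
      exact h4 (MonoidAlgebra.of_injective (R := ℤ) (by
        rw [MonoidAlgebra.of_apply, MonoidAlgebra.of_apply, h3]
        rfl))

end Pool.Agent.NGR.H73
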